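import Pool.Agent.Lib.MP_baa3fb_lc.NotSimple
import Pool.Agent.Lib.MP_baa3fb_lc.Hyperfinite

/-!
# The continuous theory of the hyperfinite II₁ factor is not simple

All definitions used in the statement are in `Pool.Agent.Lib.MP_baa3fb_lc.Defs`. The hyperfinite
II₁ factor `R` is unique up to trace preserving isomorphism (Murray and von Neumann); here it is
realised as the group von Neumann algebra of the group of finitary permutations of the natural
numbers (`hyperfiniteR`), and it is proved that this algebra is a hyperfinite II₁ factor.

Proof idea. For an infinite set `I` the algebra `L(FinPerm I)` of the group of finitary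
permutations of `I` has the same theory as `R = L(FinPerm ℕ)` (back and forth between finite
levels, with finite dimensional approximation). In `L(FinPerm (ℝ × ℕ × Bool))` let
`a_α = λ((α,0,false) (α,0,true))` and `b_α = λ((α,1,false) (α,1,true))` be unitaries given by
transpositions. There is a type `p(x)` over `B = {a_α, b_α}` saying that `x` is a unitary with
`x a_α = b_α x` for all `α`. If `A ⊆ B` is separable then it is countable, so some `b_α` is not in
`A`; replacing `b_α` by `λ((α,i+1,false) (α,i+1,true))`, `i = 0, 1, …`, gives an `A`-indiscernible
sequence which shows that `p` divides over `A`.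
-/

set_option autoImplicit false

namespace Pool.Agent.Results.MP_baa3fb_lc.NotSimple

open Pool.Agent.TVN

/-- The continuous theory of the hyperfinite II₁ factor `R` is not simple. -/
theorem result : ∃ R : TracialVN, IsHyperfiniteII1 R ∧ ¬ IsSimple (theory R) :=
  ⟨hyperfiniteR, isHyperfiniteII1, not_simple⟩

end Pool.Agent.Results.MP_baa3fb_lc.NotSimple
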